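import Pool.Agent.Y89.TU.Stm
import Pool.Agent.Y998.TS.MAX
import Pool.Agent.Y259.TS.Mono
import Pool.Agent.Y165.TS.COMM

/-!
Job TV-IDEAL (helper657): ideals in the even Clifford algebra.  The operators are those of
helper998's file on the maximality of the spin Lie algebra.
-/

set_option autoImplicit false

open Matrix Finset

namespace Pool.Agent.Y657.TV

open Pool.Agent.Y89.TS Pool.Agent.Y998.TS

section

variable {N : Type} [Fintype N] [DecidableEq N] {n : ℕ} {Γ : Fin n → Matrix N N ℂ}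
  {K : Submodule ℂ (Matrix N N ℂ)}

theorem conjK (h : Mon Γ) (had : ∀ i j, i ≠ j → ∀ a ∈ K, Γ i * Γ j * a - a * (Γ i * Γ j) ∈ K)
    {a b : Fin n} (hab : a ≠ b) {X : Matrix N N ℂ} (hX : X ∈ K) :
    (Γ a * Γ b) * X * (Γ a * Γ b) ∈ K := by
  have h2 := had a b hab _ (had a b hab _ hX)
  set G := Γ a * Γ b with hG
  have h3 : G * G = -1 := h.pair_sq hab
  have h4 : G * (G * X - X * G) - (G * X - X * G) * G =
      (G * G) * X + X * (G * G) - (2 : ℂ) • (G * X * G) := by
    rw [two_smul]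
    noncomm_ring
  rw [h4, h3] at h2
  have h5 : G * X * G = (-(1 / 2) : ℂ) • (-1 * X + X * -1 - (2 : ℂ) • (G * X * G)) +
      (-1 : ℂ) • X := by
    rw [smul_sub, smul_add, smul_smul]
    simp only [neg_mul, one_mul, mul_neg, mul_one, smul_neg]
    module
  rw [h5]
  exact K.add_mem (K.smul_mem _ h2) (K.smul_mem _ hX)

theorem suppK (h : Mon Γ) (hn : Odd n)
    (had : ∀ i j, i ≠ j → ∀ a ∈ K, Γ i * Γ j * a - a * (Γ i * Γ j) ∈ K) :
    ∀ (k : ℕ) (c : Finset (Fin n) → ℂ), (∀ s, ¬ Even s.card → c s = 0) →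
      (Finset.univ.filter fun s => c s ≠ 0).card ≤ k → ∑ s, c s • mono Γ s ∈ K →
      ∀ s, c s ≠ 0 → mono Γ s ∈ K := by
  intro k
  induction k with
  | zero =>
    intro c _ hk _ s hs
    have h1 : s ∈ Finset.univ.filter fun s => c s ≠ 0 := by simp [hs]
    have h2 := Finset.card_pos.2 ⟨s, h1⟩
    omega
  | succ k ih =>
    intro c hc hk hX s hs
    by_cases h1 : ∃ t, t ≠ s ∧ c t ≠ 0
    · obtain ⟨t, hts, ht⟩ := h1
      have hse : Even s.card := by
        by_contra h2
        exact hs (hc s h2)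
      have hte : Even t.card := by
        by_contra h2
        exact ht (hc t h2)
      obtain ⟨a, b, hab, h2⟩ := sep hn hse hte (fun h' => hts h'.symm)
      have hsg : ∀ u, sg a b u = -1 ∨ sg a b u = 1 := by
        intro u
        unfold sg
        split_ifs
        · exact Or.inl rfl
        · exact Or.inr rfl
      have h3 := conjK h had hab hX
      have h4 : (Γ a * Γ b) * (∑ s, c s • mono Γ s) * (Γ a * Γ b) =
          ∑ u, (sg a b u * c u) • mono Γ u := by
        rw [Finset.mul_sum, Finset.sum_mul]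
        refine Finset.sum_congr rfl fun u _ => ?_
        rw [mul_smul_comm, smul_mul_assoc, h.conj_mono hab u, smul_smul, mul_comm]
      rw [h4] at h3
      have h5 : ∑ u, ((1 + sg a b s * sg a b u) * c u) • mono Γ u ∈ K := by
        have h6 : ∑ u, ((1 + sg a b s * sg a b u) * c u) • mono Γ u =
            (∑ u, c u • mono Γ u) + sg a b s • ∑ u, (sg a b u * c u) • mono Γ u := by
          rw [Finset.smul_sum, ← Finset.sum_add_distrib]
          refine Finset.sum_congr rfl fun u _ => ?_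
          rw [smul_smul, ← add_smul]
          congr 1
          ring
        rw [h6]
        exact K.add_mem hX (K.smul_mem _ h3)
      refine ih (fun u => (1 + sg a b s * sg a b u) * c u) ?_ ?_ h5 s ?_
      · intro u hu
        simp only [hc u hu, mul_zero]
      · have h6 : (Finset.univ.filter fun u => (1 + sg a b s * sg a b u) * c u ≠ 0) ⊆
            (Finset.univ.filter fun u => c u ≠ 0).erase t := by
          intro u hu
          rw [Finset.mem_filter] at hu
          rw [Finset.mem_erase, Finset.mem_filter]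
          refine ⟨?_, Finset.mem_univ _, fun h7 => hu.2 (by rw [h7, mul_zero])⟩
          rintro rfl
          apply hu.2
          rcases hsg s with h7 | h7 <;> rcases hsg u with h8 | h8
          · exact absurd (h7.trans h8.symm) h2
          · rw [h7, h8]; norm_num
          · rw [h7, h8]; norm_num
          · exact absurd (h7.trans h8.symm) h2
        have h7 : t ∈ Finset.univ.filter fun u => c u ≠ 0 := by simp [ht]
        have h8 := Finset.card_le_card h6
        rw [Finset.card_erase_of_mem h7] at h8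
        omega
      · have h6 : sg a b s * sg a b s = 1 := by
          rcases hsg s with h7 | h7 <;> rw [h7] <;> norm_num
        simp only [h6]
        exact mul_ne_zero (by norm_num) hs
    · push Not at h1
      have h2 : ∑ u, c u • mono Γ u = c s • mono Γ s := by
        rw [Finset.sum_eq_single s]
        · intro u _ hu
          rw [h1 u hu, zero_smul]
        · intro h3
          exact absurd (Finset.mem_univ s) h3
      rw [h2] at hX
      have h3 := K.smul_mem (c s)⁻¹ hX
      rwa [smul_smul, inv_mul_cancel₀ hs, one_smul] at h3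

theorem mono_sq (h : Mon Γ) (s : Finset (Fin n)) :
    mono Γ s * mono Γ s = 1 ∨ mono Γ s * mono Γ s = -1 := by
  have h1 : mono Γ (⊥ : Finset (Fin n)) = 1 := h.e
  rcases h.mul s s with h3 | h3
  · rw [symmDiff_self, h1] at h3
    exact Or.inl h3
  · rw [symmDiff_self, h1] at h3
    exact Or.inr h3

/-- products across the cut -/
theorem cut (h : Mon Γ) (hbr : ∀ a ∈ K, ∀ b ∈ K, a * b - b * a ∈ K)
    (had : ∀ i j, i ≠ j → ∀ a ∈ K, Γ i * Γ j * a - a * (Γ i * Γ j) ∈ K)
    {s : Finset (Fin n)} (hs : mono Γ s ∈ K) {a b : Fin n} (ha : a ∈ s) (hb : b ∉ s) :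
    Γ a * Γ b ∈ K := by
  have hab : a ≠ b := fun h' => hb (h' ▸ ha)
  have hcap : ({a, b} : Finset (Fin n)) ∩ s = {a} := by
    ext x
    simp only [Finset.mem_inter, Finset.mem_insert, Finset.mem_singleton]
    constructor
    · rintro ⟨rfl | rfl, h6⟩
      · rfl
      · exact absurd h6 hb
    · rintro rfl
      exact ⟨Or.inl rfl, ha⟩
  have hac : (Γ a * Γ b) * mono Γ s = -(mono Γ s * (Γ a * Γ b)) := by
    have h1 := h.ac (s := {a, b}) (t := s) (by rw [Finset.card_pair hab]; exact even_two)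
      (by rw [hcap]; simp)
    rcases h.pair hab with h2 | h2
    · rw [h2]; exact h1
    · rw [h2]
      simp only [neg_mul, mul_neg, neg_neg]
      rw [h1, neg_neg]
  obtain ⟨G, hG⟩ : ∃ G, G = Γ a * Γ b := ⟨_, rfl⟩
  obtain ⟨m, hm⟩ : ∃ m, m = mono Γ s := ⟨_, rfl⟩
  have h1 := had a b hab _ hs
  rw [← hG, ← hm] at h1 hac
  rw [← hm] at hs
  rw [← hG]
  have h2 : G * m ∈ K := by
    have h3 : G * m - m * G = (2 : ℂ) • (G * m) := by
      rw [hac, two_smul]
      abel
    rw [h3] at h1
    have h4 := K.smul_mem (2 : ℂ)⁻¹ h1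
    rwa [smul_smul, inv_mul_cancel₀ (by norm_num), one_smul] at h4
  have h3 := hbr _ hs _ h2
  have h4 : m * (G * m) - G * m * m = (-2 : ℂ) • (G * (m * m)) := by
    have h5 : m * (G * m) = -(G * (m * m)) := by
      rw [← mul_assoc, ← mul_assoc, hac, neg_mul, neg_neg]
    rw [h5, mul_assoc]
    rw [neg_smul, two_smul]
    abel
  rw [h4] at h3
  have h5 := K.smul_mem (-2 : ℂ)⁻¹ h3
  rw [smul_smul, inv_mul_cancel₀ (by norm_num), one_smul] at h5
  rcases mono_sq h s with h6 | h6
  · rw [← hm] at h6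
    rwa [h6, mul_one] at h5
  · rw [← hm] at h6
    rw [h6, mul_neg, mul_one] at h5
    exact (Submodule.neg_mem_iff K).1 h5

/-- products through a third index -/
theorem third (hsq : ∀ i, Γ i * Γ i = 1) (hanti : ∀ i j, i ≠ j → Γ i * Γ j = -(Γ j * Γ i))
    (had : ∀ i j, i ≠ j → ∀ a ∈ K, Γ i * Γ j * a - a * (Γ i * Γ j) ∈ K)
    {i j c : Fin n} (hij : i ≠ j) (hic : i ≠ c) (hjc : j ≠ c) (h : Γ i * Γ c ∈ K) :
    Γ i * Γ j ∈ K := by
  have h1 := had c j hjc.symm _ h
  have e1 : Γ c * Γ j * (Γ i * Γ c) = -(Γ i * Γ j) := by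
    calc Γ c * Γ j * (Γ i * Γ c) = Γ c * (Γ j * Γ i) * Γ c := by noncomm_ring
      _ = Γ c * (-(Γ i * Γ j)) * Γ c := by rw [hanti j i hij.symm]
      _ = -((Γ c * Γ i) * (Γ j * Γ c)) := by noncomm_ring
      _ = -((-(Γ i * Γ c)) * (-(Γ c * Γ j))) := by rw [hanti c i hic.symm, hanti j c hjc]
      _ = -(Γ i * (Γ c * Γ c) * Γ j) := by noncomm_ring
      _ = -(Γ i * Γ j) := by rw [hsq, mul_one]
  have e2 : Γ i * Γ c * (Γ c * Γ j) = Γ i * Γ j := by
    calc Γ i * Γ c * (Γ c * Γ j) = Γ i * (Γ c * Γ c) * Γ j := by noncomm_ring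
      _ = Γ i * Γ j := by rw [hsq, mul_one]
  rw [e1, e2] at h1
  have h2 : -(Γ i * Γ j) - Γ i * Γ j = (-2 : ℂ) • (Γ i * Γ j) := by
    rw [neg_smul, two_smul]
    abel
  rw [h2] at h1
  have h5 := K.smul_mem (-2 : ℂ)⁻¹ h1
  rwa [smul_smul, inv_mul_cancel₀ (by norm_num), one_smul] at h5

end

theorem t_ideal : Pool.Agent.Y89.TU.S_ideal := by
  intro N _ _ n Γ hΓ hn K hbr had hcomm
  obtain ⟨m1, m2, m3, m4⟩ := Pool.Agent.Y259.TS.t_mono N n Γ hΓ
  have hM : Mon Γ := ⟨hΓ.sq, m1, m2, m3, m4⟩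
  by_cases hsc : ∀ a ∈ K, ∃ c : ℂ, a = c • (1 : Matrix N N ℂ)
  · exact Or.inl hsc
  · right
    push Not at hsc
    obtain ⟨a, haK, ha⟩ := hsc
    obtain ⟨c, hc, rfl⟩ := exists_coef (Pool.Agent.Y165.TS.t_comm Pool.Agent.Y259.TS.t_mono N n Γ hΓ a (hcomm a haK))
    have hex : ∃ s : Finset (Fin n), s.Nonempty ∧ c s ≠ 0 := by
      by_contra hno
      push Not at hno
      apply ha (c ∅)
      rw [Finset.sum_eq_single ∅]
      · rw [m1]
      · intro s _ hs
        rw [hno s (Finset.nonempty_iff_ne_empty.2 hs), zero_smul]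
      · intro h
        exact absurd (Finset.mem_univ _) h
    obtain ⟨s, ⟨x, hx⟩, hcs⟩ := hex
    have hsK := suppK hM hn had _ c hc le_rfl haK s hcs
    have hse : Even s.card := by
      by_contra h2
      exact hcs (hc s h2)
    obtain ⟨y, hy⟩ : ∃ y, y ∉ s := by
      by_contra h3
      push Not at h3
      have h4 : s = Finset.univ := Finset.eq_univ_iff_forall.2 h3
      rw [h4, Finset.card_univ, Fintype.card_fin] at hse
      exact (Nat.not_even_iff_odd.2 hn) hse
    have hcut := fun {a b : Fin n} (ha : a ∈ s) (hb : b ∉ s) => cut hM hbr had hsK ha hb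
    have hcut' : ∀ {a b : Fin n}, a ∈ s → b ∉ s → Γ b * Γ a ∈ K := by
      intro a b ha hb
      have hab : b ≠ a := fun h' => hb (h' ▸ ha)
      rw [hΓ.anti b a hab]
      exact (Submodule.neg_mem_iff K).2 (hcut ha hb)
    intro i j hij
    by_cases hi : i ∈ s <;> by_cases hj : j ∈ s
    · exact third (c := y) hΓ.sq hΓ.anti had hij (fun h' => hy (h' ▸ hi)) (fun h' => hy (h' ▸ hj))
        (hcut hi hy)
    · exact hcut hi hj
    · exact hcut' hj hi
    · exact third (c := x) hΓ.sq hΓ.anti had hij (fun h' => hi (h' ▸ hx)) (fun h' => hj (h' ▸ hx))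
        (hcut' hx hi)

end Pool.Agent.Y657.TV
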